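import Pool.Agent.W646.CI.Stm

set_option autoImplicit false

namespace Pool.Agent.W54.CI

open MeasureTheory Filter Topology Set
open Pool.Agent.W646.CI

noncomputable section

/-- The polynomial part. -/
def PP (p : ℕ) (u : ℂ) : ℂ := ∑ k ∈ Finset.range p, u ^ (k + 1) / ((k : ℂ) + 1)

theorem Ep_eq (p : ℕ) (u : ℂ) : MinMod.Ep p u = (1 - u) * Complex.exp (PP p u) := rfl

theorem norm_Ep (p : ℕ) (u : ℂ) : ‖MinMod.Ep p u‖ = ‖1 - u‖ * Real.exp (PP p u).re := by
  rw [Ep_eq, norm_mul, Complex.norm_exp]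

theorem log_Ep (p : ℕ) (u : ℂ) (hu : u ≠ 1) :
    Real.log ‖MinMod.Ep p u‖ = Real.log ‖1 - u‖ + (PP p u).re := by
  rw [norm_Ep, Real.log_mul (norm_ne_zero_iff.2 (sub_ne_zero.2 (Ne.symm hu)))
    (Real.exp_pos _).ne', Real.log_exp]

theorem cont_PP (p : ℕ) : Continuous (PP p) := by
  unfold PP
  fun_prop

theorem null (z : ℂ) : ∀ᵐ s : ℂ, z * Complex.exp (-s) ≠ 1 := by
  have hc : {s : ℂ | z * Complex.exp (-s) = 1}.Countable := by
    rcases Set.eq_empty_or_nonempty {s : ℂ | z * Complex.exp (-s) = 1} with h | ⟨s1, hs1⟩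
    · rw [h]
      exact Set.countable_empty
    · refine (Set.countable_range
        (fun n : ℤ => s1 - n * (2 * Real.pi * Complex.I))).mono ?_
      intro s hs
      have e1 : z * Complex.exp (-s) = 1 := hs
      have e2 : z * Complex.exp (-s1) = 1 := hs1
      have hz : z ≠ 0 := by
        intro h
        rw [h, zero_mul] at e1
        exact zero_ne_one e1
      have e3 : Complex.exp (-s) = Complex.exp (-s1) :=
        mul_left_cancel₀ hz (e1.trans e2.symm)
      obtain ⟨n, hn⟩ := Complex.exp_eq_exp_iff_exists_int.1 e3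
      refine ⟨n, ?_⟩
      show s1 - n * (2 * Real.pi * Complex.I) = s
      linear_combination hn
  exact hc.ae_notMem volume

theorem final_ineq (m γ E Ik IX C0 δ : ℝ) (hγ : 0 < γ) (hm0 : 0 ≤ m) (hm1 : m ≤ γ)
    (hm2 : γ < m + 1) (hIX : 0 ≤ IX) (hIk : -(3 * IX) ≤ Ik) (hC0 : 0 < C0) (hδ : 0 < δ)
    (h : m = 0 ∨ γ * Real.log E ≤ Ik + C0 * δ * IX) :
    m * Real.log E ≤ Ik + ((C0 + 3) * δ + (C0 + 3) / γ) * IX := by
  obtain ⟨θ, hθ⟩ : ∃ θ : ℝ, θ = m / γ := ⟨_, rfl⟩
  have hθ0 : 0 ≤ θ := by rw [hθ]; positivity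
  have hθ1 : θ ≤ 1 := by rw [hθ, div_le_one hγ]; exact hm1
  have hθ2 : 1 - θ ≤ 1 / γ := by
    rw [hθ, le_div_iff₀ hγ, sub_mul, div_mul_cancel₀ _ hγ.ne']
    linarith
  have hmθ : m = θ * γ := by rw [hθ, div_mul_cancel₀ _ hγ.ne']
  have key : m * Real.log E ≤ θ * (Ik + C0 * δ * IX) := by
    rcases h with h | h
    · have h0 : θ = 0 := by rw [hθ, h, zero_div]
      rw [h, h0, zero_mul, zero_mul]
    · rw [hmθ, mul_assoc]
      exact mul_le_mul_of_nonneg_left h hθ0
  have e1 : (1 - θ) * (-(3 * IX)) ≤ (1 - θ) * Ik :=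
    mul_le_mul_of_nonneg_left hIk (by linarith)
  have e2 : (1 - θ) * (3 * IX) ≤ 1 / γ * (3 * IX) :=
    mul_le_mul_of_nonneg_right hθ2 (by linarith)
  have e3 : θ * (C0 * δ * IX) ≤ 1 * (C0 * δ * IX) :=
    mul_le_mul_of_nonneg_right hθ1 (by positivity)
  have e4 : 0 ≤ 3 * δ * IX := by positivity
  have e5 : 0 ≤ C0 / γ * IX := by positivity
  have e6 : (C0 + 3) / γ * IX = C0 / γ * IX + 1 / γ * (3 * IX) := by ring
  have e7 : (C0 + 3) * δ * IX = C0 * δ * IX + 3 * δ * IX := by ring
  rw [add_mul, e6, e7]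
  nlinarith

theorem cell (h1 : S_EP) (h2 : S_EPB) (h3 : S_LOGI) (h4 : S_RECI) : S_CELL := by
  obtain ⟨C0, hC0, h1⟩ := h1
  refine ⟨C0 + 3, by linarith, ?_⟩
  intro p δ T s0 G B hδ hδp hT hTs hG hG0 hGB hγ
  obtain ⟨γ, hγdef⟩ : ∃ γ : ℝ, γ = ∫ s in T, G s := ⟨_, rfl⟩
  rw [← hγdef] at hγ ⊢
  have hTsub : T ⊆ Metric.closedBall s0 δ := by
    intro s hs
    rw [Metric.mem_closedBall, dist_eq_norm]
    exact hTs s hs
  have hGmul : ∀ f : ℂ → ℝ, IntegrableOn f T → IntegrableOn (fun s => G s * f s) T := by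
    intro f hf
    refine Integrable.bdd_mul (c := B) hf hG.aestronglyMeasurable (ae_of_all _ (fun s => ?_))
    rw [Real.norm_of_nonneg (hG0 s)]
    exact hGB s
  have hcontR : ∀ f : ℂ → ℝ, Continuous f → IntegrableOn f T := by
    intro f hf
    exact (hf.continuousOn.integrableOn_compact (isCompact_closedBall s0 δ)).mono_set hTsub
  have hcontC : ∀ f : ℂ → ℂ, Continuous f → IntegrableOn f T := by
    intro f hf
    exact (hf.continuousOn.integrableOn_compact (isCompact_closedBall s0 δ)).mono_set hTsub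
  have hGmulC : ∀ f : ℂ → ℂ, Continuous f → IntegrableOn (fun s => (G s : ℂ) * f s) T := by
    intro f hf
    have hGm : Measurable (fun s => (G s : ℂ)) := Complex.measurable_ofReal.comp hG
    refine Integrable.bdd_mul (c := B) (hcontC f hf) hGm.aestronglyMeasurable
      (ae_of_all _ (fun s => ?_))
    rw [Complex.norm_real, Real.norm_of_nonneg (hG0 s)]
    exact hGB s
  have hGint : IntegrableOn G T := by
    have h := hGmul (fun _ => 1) (hcontR _ continuous_const)
    simpa using h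
  obtain ⟨M, hM⟩ : ∃ M : ℕ, M = ⌊γ⌋₊ := ⟨_, rfl⟩
  have hm1 : (M : ℝ) ≤ γ := by rw [hM]; exact Nat.floor_le hγ.le
  have hm2 : γ < (M : ℝ) + 1 := by rw [hM]; exact Nat.lt_floor_add_one γ
  obtain ⟨c, hc⟩ : ∃ c : ℕ → ℂ, ∀ k : ℕ, c k = ∫ s in T, (G s : ℂ) *
    Complex.exp (-s) ^ (k + 1) := ⟨fun k => ∫ s in T, (G s : ℂ) * Complex.exp (-s) ^ (k + 1),
      fun k => rfl⟩
  obtain ⟨Q, hQ⟩ : ∃ Q : ℂ → ℂ, ∀ z, Q z = ∑ k ∈ Finset.range p,
    z ^ (k + 1) / ((k : ℂ) + 1) * c k := ⟨fun z => ∑ k ∈ Finset.range p,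
      z ^ (k + 1) / ((k : ℂ) + 1) * c k, fun z => rfl⟩
  have hQd : Differentiable ℂ Q := by
    have e : Q = fun z => ∑ k ∈ Finset.range p, z ^ (k + 1) / ((k : ℂ) + 1) * c k := funext hQ
    rw [e]
    fun_prop
  refine ⟨fun z => MinMod.Ep p (z * Complex.exp (-s0)) ^ M * Complex.exp (-Q z), ?_, ?_, ?_⟩
  · have hE : Differentiable ℂ (fun z => MinMod.Ep p (z * Complex.exp (-s0))) := by
      unfold MinMod.Ep
      fun_prop
    exact (hE.pow M).mul (hQd.neg.cexp)
  · have e1 : MinMod.Ep p (0 * Complex.exp (-s0)) = 1 := by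
      rw [zero_mul]
      unfold MinMod.Ep
      simp
    have e2 : Q 0 = 0 := by
      rw [hQ]
      simp
    show MinMod.Ep p (0 * Complex.exp (-s0)) ^ M * Complex.exp (-Q 0) = 1
    rw [e1, e2]
    simp
  · intro z
    have hu : Continuous (fun s : ℂ => z * Complex.exp (-s)) := by fun_prop
    have hL : IntegrableOn (fun s : ℂ => Real.log ‖1 - z * Complex.exp (-s)‖) T :=
      h3 z T (Metric.isBounded_closedBall.subset hTsub)
    have hP : IntegrableOn (fun s : ℂ => (PP p (z * Complex.exp (-s))).re) T :=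
      hcontR _ (Complex.continuous_re.comp ((cont_PP p).comp hu))
    have hX : IntegrableOn (fun s : ℂ => Xi p (z * Complex.exp (-s))) T := by
      have hr : IntegrableOn (fun s : ℂ => 1 + 1 / ‖1 - z * Complex.exp (-s)‖)
          (Metric.closedBall s0 δ) :=
        (continuous_const.continuousOn.integrableOn_compact (isCompact_closedBall s0 δ)).add
          (h4 z _ Metric.isBounded_closedBall)
      have hφ : Continuous (fun s : ℂ => ((p : ℝ) + 2) * ‖z * Complex.exp (-s)‖ ^ (p + 1)) := by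
        fun_prop
      exact (hr.continuousOn_mul hφ.continuousOn (isCompact_closedBall s0 δ)).mono_set hTsub
    have hK : IntegrableOn (fun s : ℂ => Real.log ‖1 - z * Complex.exp (-s)‖ +
        (PP p (z * Complex.exp (-s))).re) T := hL.add hP
    obtain ⟨IL, hIL⟩ : ∃ x : ℝ, x = ∫ s in T, G s * Real.log ‖1 - z * Complex.exp (-s)‖ :=
      ⟨_, rfl⟩
    obtain ⟨IP, hIP⟩ : ∃ x : ℝ, x = ∫ s in T, G s * (PP p (z * Complex.exp (-s))).re :=
      ⟨_, rfl⟩
    obtain ⟨IX, hIX⟩ : ∃ x : ℝ, x = ∫ s in T, G s * Xi p (z * Complex.exp (-s)) :=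
      ⟨_, rfl⟩
    have hIK : ∫ s in T, G s * (Real.log ‖1 - z * Complex.exp (-s)‖ +
        (PP p (z * Complex.exp (-s))).re) = IL + IP := by
      rw [hIL, hIP, ← integral_add (hGmul _ hL) (hGmul _ hP)]
      congr 1
      ext s
      ring
    have hXnn : ∀ s : ℂ, 0 ≤ Xi p (z * Complex.exp (-s)) := by
      intro s
      unfold Xi
      positivity
    have hIX0 : 0 ≤ IX := by
      rw [hIX]
      exact integral_nonneg (fun s => mul_nonneg (hG0 s) (hXnn s))
    have claim2 : -(3 * IX) ≤ IL + IP := by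
      rw [← hIK, hIX, ← integral_const_mul, ← integral_neg]
      refine integral_mono_ae ((hGmul _ hX).const_mul 3).neg (hGmul _ hK) ?_
      filter_upwards [ae_restrict_of_ae (null z)] with s hs
      have e1 := h2 p (z * Complex.exp (-s)) hs
      rw [log_Ep p _ hs] at e1
      have e2 := (abs_le.1 e1).1
      have e3 : 3 * ((p : ℝ) + 2) * ‖z * Complex.exp (-s)‖ ^ (p + 1) *
          (1 + 1 / ‖1 - z * Complex.exp (-s)‖) = 3 * Xi p (z * Complex.exp (-s)) := by
        unfold Xi
        ring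
      rw [e3] at e2
      have e4 := mul_le_mul_of_nonneg_left e2 (hG0 s)
      have e5 : -(3 * (G s * Xi p (z * Complex.exp (-s)))) =
        G s * -(3 * Xi p (z * Complex.exp (-s))) := by ring
      show -(3 * (G s * Xi p (z * Complex.exp (-s)))) ≤ _
      rw [e5]
      exact e4
    obtain ⟨E, hEdef⟩ : ∃ E : ℝ, E = ‖MinMod.Ep p (z * Complex.exp (-s0))‖ := ⟨_, rfl⟩
    have hE0 : 0 ≤ E := by rw [hEdef]; exact norm_nonneg _
    have claim1 : E ≠ 0 → γ * Real.log E ≤ (IL + IP) + C0 * δ * IX := by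
      intro hE
      have e0 : (IL + IP) + C0 * δ * IX = ∫ s in T, G s * ((Real.log ‖1 - z * Complex.exp (-s)‖ +
          (PP p (z * Complex.exp (-s))).re) + C0 * δ * Xi p (z * Complex.exp (-s))) := by
        rw [← hIK, hIX, ← integral_const_mul,
          ← integral_add (hGmul _ hK) ((hGmul _ hX).const_mul (C0 * δ))]
        congr 1
        ext s
        ring
      rw [e0, hγdef, ← integral_mul_const]
      refine integral_mono_ae (hGint.mul_const _) (hGmul _ (hK.add (hX.const_mul (C0 * δ)))) ?_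
      filter_upwards [ae_restrict_of_ae (null z), ae_restrict_mem hT] with s hs hsT
      refine mul_le_mul_of_nonneg_left ?_ (hG0 s)
      have hη := hTs s hsT
      have e1 : z * Complex.exp (-s) * Complex.exp (s - s0) = z * Complex.exp (-s0) := by
        rw [mul_assoc, ← Complex.exp_add]
        congr 2
        ring
      have e2 := h1 p (z * Complex.exp (-s)) (s - s0) hs (by
        refine le_trans ?_ hδp
        have : (0 : ℝ) ≤ (p : ℝ) + 1 := by positivity
        gcongr)
      rw [e1, ← hEdef] at e2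
      have hEpos : 0 < E := lt_of_le_of_ne hE0 (Ne.symm hE)
      have hEp : ‖MinMod.Ep p (z * Complex.exp (-s))‖ ≠ 0 := by
        rw [norm_Ep]
        exact mul_ne_zero (norm_ne_zero_iff.2 (sub_ne_zero.2 (Ne.symm hs))) (Real.exp_pos _).ne'
      have e3 := Real.log_le_log hEpos e2
      rw [Real.log_mul hEp (Real.exp_pos _).ne', Real.log_exp, log_Ep p _ hs] at e3
      refine e3.trans ?_
      have e4 : C0 * ‖s - s0‖ * ((p : ℝ) + 1) * ‖z * Complex.exp (-s)‖ ^ (p + 1) *
          (1 + 1 / ‖1 - z * Complex.exp (-s)‖) ≤ C0 * δ * Xi p (z * Complex.exp (-s)) := by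
        have e5 : C0 * δ * Xi p (z * Complex.exp (-s)) = C0 * δ * ((p : ℝ) + 2) *
            ‖z * Complex.exp (-s)‖ ^ (p + 1) * (1 + 1 / ‖1 - z * Complex.exp (-s)‖) := by
          unfold Xi
          ring
        rw [e5]
        have e6 : (p : ℝ) + 1 ≤ (p : ℝ) + 2 := by linarith
        gcongr
      linarith
    have hIPQ : (Q z).re = IP := by
      have e1 : Q z = ∫ s in T, (G s : ℂ) * PP p (z * Complex.exp (-s)) := by
        have e2 : (fun s : ℂ => (G s : ℂ) * PP p (z * Complex.exp (-s))) =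
            fun s : ℂ => ∑ k ∈ Finset.range p, z ^ (k + 1) / ((k : ℂ) + 1) *
              ((G s : ℂ) * Complex.exp (-s) ^ (k + 1)) := by
          ext s
          unfold PP
          rw [Finset.mul_sum]
          refine Finset.sum_congr rfl (fun k _ => ?_)
          rw [mul_pow]
          ring
        rw [e2, integral_finsetSum, hQ]
        · refine Finset.sum_congr rfl (fun k _ => ?_)
          rw [integral_const_mul, hc]
        · intro k _
          exact (hGmulC _ (by fun_prop)).const_mul _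
      rw [e1, hIP]
      have e3 : IntegrableOn (fun s : ℂ => (G s : ℂ) * PP p (z * Complex.exp (-s))) T :=
        hGmulC _ ((cont_PP p).comp hu)
      have e4 := integral_re e3
      have e5 : (∫ s in T, (G s : ℂ) * PP p (z * Complex.exp (-s))).re =
          ∫ s in T, ((G s : ℂ) * PP p (z * Complex.exp (-s))).re := e4.symm
      rw [e5]
      congr 1
      ext s
      rw [Complex.re_ofReal_mul]
    have hnorm : ‖MinMod.Ep p (z * Complex.exp (-s0)) ^ M * Complex.exp (-Q z)‖ =
        E ^ M * Real.exp (-IP) := by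
      rw [norm_mul, norm_pow, Complex.norm_exp, Complex.neg_re, hIPQ, ← hEdef]
    show ‖MinMod.Ep p (z * Complex.exp (-s0)) ^ M * Complex.exp (-Q z)‖ ≤ _
    rw [hnorm, ← hIL, ← hIX]
    by_cases hM0 : M ≠ 0 ∧ E = 0
    · rw [hM0.2, zero_pow hM0.1, zero_mul]
      exact (Real.exp_pos _).le
    · have hor : (M : ℝ) = 0 ∨ γ * Real.log E ≤ (IL + IP) + C0 * δ * IX := by
        by_cases h : M = 0
        · left
          rw [h, Nat.cast_zero]
        · right
          exact claim1 (fun hE => hM0 ⟨h, hE⟩)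
      have hfin := final_ineq (M : ℝ) γ E (IL + IP) IX C0 δ hγ (Nat.cast_nonneg _) hm1 hm2
        hIX0 claim2 hC0 hδ hor
      have hpow : E ^ M ≤ Real.exp (M * Real.log E) := by
        by_cases hE : E = 0
        · have hM' : M = 0 := by
            by_contra h
            exact hM0 ⟨h, hE⟩
          rw [hM', pow_zero, Nat.cast_zero, zero_mul, Real.exp_zero]
        · have hEpos : 0 < E := lt_of_le_of_ne hE0 (Ne.symm hE)
          rw [Real.exp_nat_mul, Real.exp_log hEpos]
      calc E ^ M * Real.exp (-IP) ≤ Real.exp (M * Real.log E) * Real.exp (-IP) :=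
            mul_le_mul_of_nonneg_right hpow (Real.exp_pos _).le
        _ = Real.exp (M * Real.log E + -IP) := (Real.exp_add _ _).symm
        _ ≤ _ := Real.exp_le_exp.2 (by linarith)

end

end Pool.Agent.W54.CI
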